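import Pool.Agent.TH766.IT.Main

/-!
# Iitaka's conjecture for fibrations of iterated quotients

The class `IsTower` of projective varieties over `ℂ` (given by their function fields) is the smallest
class which contains the point, the varieties of general type, the uniruled varieties, the irreducible
components of the projective varieties given by nested sums of high powers of linear forms or of
monomials, and the abelian covers of products of projective spaces over arbitrary arrangements of
hyperplanes with multiplicities at least `n i + 2`, and which contains with `Y` all quotients
`(Y × ∏ C j) / G`, for curves `C j` and finite groups `G` acting on the product and permuting the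
curves, such that `MixedPos` holds, for instance such that the fixed locus of each `g ≠ 1` on the
product of the curves is empty or of codimension at least `7`. The class comes with explicit values
`κ` of the Kodaira dimension.

Let `E` be a projective manifold birational to a member of this class with `κ = -∞` or `κ = dim E`
(these values are explicit; it is not known beforehand which one occurs, and whether a third one
occurs), and let `E → B` be any fibration (any dominant rational map is allowed) with
`κ (B) ≥ 0` and general fibre `F`. Then `κ (E) ≥ κ (F) + dim B` (`result`; if `κ (F) = -∞` there is
nothing to show). In particular, Iitaka's inequality
`κ (E) ≥ κ (F) + κ (B)` holds for all fibrations of `E`.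

The result combines the theorem on the class (`Pool.Agent.TH766.IQ`: it uses theorems of helper710 and
helper756 on the basic classes, and the starting repository) with a proof that on a uniruled variety
the general fibre of a fibration over a base with `κ ≥ 0` has a canonical divisor which is not
pseudo-effective (`Pool.Agent.TH766.IT`, which uses `Pool.Agent.TH143.GT`, helper143), and with a proof
that the Kodaira dimension is at most the dimension, over any field of characteristic zero.
-/

set_option autoImplicit false
set_option linter.overlappingInstances false

open FF IntermediateField Pool.Agent.W619.PQ Pool.Agent.W619.TW Pool.Agent.TH766.IQ

namespace Pool.Agent.Results.MP_f72953_ag.IteratedQuotientFibrations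

/-- Let `E` be a projective manifold with function field `K`, birational to a member of the class of
iterated quotients with `κ = -∞` or `κ = d = dim E`, and let `E → B` be a fibration, or any dominant
rational map, onto a variety of dimension `b`, with function field `B` (a subfield of `K`) and generic
fibre `F` of dimension `f` (with function field `K` over the field `B`). If `κ (B) ≥ 0` and
`κ (F) ≥ h`, then `κ (E) ≥ h + b`. Hence `κ (E) ≥ κ (F) + κ (B)`. -/
theorem result (K : Type) [Field K] [Algebra ℂ K] (d : ℕ) (κ : WithBot ℕ) (hK : IsTower K d κ)
    (hκ : κ = ⊥ ∨ κ = d) (B : IntermediateField ℂ K) [Algebra.EssFiniteType ℂ B] (b f : ℕ)
    (hb : Algebra.trdeg ℂ B = b) (hf : Algebra.trdeg B K = f)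
    (hB : IsEff ℂ B b (fun _ => False)) (h : ℕ) (hF : KodGe B K f (fun _ => False) h) :
    KodGe ℂ K d (fun _ => False) (h + b) :=
  Pool.Agent.TH766.IT.main hK hκ B hb hf hB hF

end Pool.Agent.Results.MP_f72953_ag.IteratedQuotientFibrations
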