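import Pool.Agent.TH585.SV.Bas
import Pool.Agent.TH585.SV.Mov4

/-!
# Iitaka's conjecture for fibres which are covers of `ℙᵉ` over moving hyperplanes

Let `E → B` be a fibration of smooth projective varieties, `d` and `d + e` the dimensions of `B` and
`E`, `e ≥ 1`, with an arbitrary base `B`. Suppose that the generic fibre has a generically finite
rational map to the projective space of dimension `e` over the function field of `B`, that there
are `r` hyperplanes `H i` of this space, over the function field of `B` or an algebraic extension
(so that they move with the point of `B`), in general position, and that one of the following two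
conditions holds, where `N (r - e - 1) ≥ r`:

* each prime divisor of `E` which dominates `B` has the multiplicity `0` or at least `N` in the
  inverse image of the divisor `∑ H i`;
* `N` divides `r`, and the map to the projective space factors through the cyclic cover
  `b y ^ N = ∏ ℓ i` of degree `N`, `ℓ i` the linear form of `H i`, `b` algebraic over the function
  field of `B` (for instance `N = 2`, `r = 2 e + 2`, or `r = N = e + 2`).

Then

  `κ(E) ≥ κ(B)`.

So Iitaka's inequality `κ(E) ≥ κ(F) + κ(B)` holds for these fibrations if `κ(F) = 0`, in all
dimensions. (If `κ(F) = 0` then `N (r - e - 1) = r`, since `F` is of general type if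
`N (r - e - 1) > r`; fibres of general type are the theorem of Kollár.) Such fibres are for instance
all varieties `F` with `κ(F) = 0` and a generically finite map to a double cover of `ℙᵉ` over
`2 e + 2` hyperplanes in general position, which may vary with the fibre; it is not known, as far as I
can see, that such an `F` has a good minimal model if `e ≥ 4` (otherwise the inequality follows from
Kawamata's theorem of 1985). All that is used of `F` is the map to `ℙᵉ`.

The function-field language of the starting repository is used. `K` is the function field of `E` and
the intermediate field `L` that of `B`; the prime divisors of `E` are places `P` of `K` (`Place`,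
`Divisorial`), `P.ord` is the order along `P`, and `E` is given by the set `X` of its prime divisors.
A section of `m K_E` is an `m`-canonical form `ω` (`IsPluri`), a function of `d + e` rational vector
fields, whose value on vector fields that are regular at `P` is regular at `P`, for all prime
divisors `P` of `E`; for `B` all prime divisors over `B` are considered, which gives the same
sections since `B` is smooth. The prime divisors of `E` which dominate `B` are those at which all
nonzero elements of `K` which are algebraic over `L` are units.

Proof (`Pool.Agent.TH585.SV`, files `Mov`, `Mov2`, `Mov3`, `Bas`, and `Fib`, `Fib7`, `Fib8`). Let `ℓ i`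
be the linear forms of the `H i`, evaluated at `z = (1, x)`, and `W (G)` the determinant of the values
of `e` vector fields `G` over `L` at `x`. For `e + 1` forms with indices in `I`, with the determinant
`det I` of their coefficients, `det I · W (G)` is the determinant of the rows `ℓ`, `G ℓ`. If some
nonzero element of `L` is not a unit at `P` then regular vector fields `G` over `L` are logarithmic at
`P`, so `det I · W (G) / ∏ ℓ` is regular at `P`. The product `θ (G)` of these functions over the `r`
sets `I` of `e + 1` cyclically consecutive indices is `c W (G) ^ r / ∏ ℓ i ^ (e + 1)`; at a divisor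
`P` which dominates `B` it has order at least `r (T - 1) - (e + 1) T ≥ 0`, where `T ≥ N` is the sum of
the multiplicities of `P` in the `H i`. So `θ` is an `r`-canonical form along the fibres which is
regular on `E`. The sections of `m K_E` are the products of powers of `θ` and of the inverse images of
the sections of `m' K_B`; here Cramer's rule is used to find, for any `d + e` regular vector fields
at `P`, `e` regular vector fields which are tangent to the fibres.
-/

set_option autoImplicit false

open FF Pool.Agent.W602.GT

namespace Pool.Agent.Results.MP_f72953_ag.MovingHyperplaneFibres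

/-- The value at the point `(1 : x 0 : … : x (e - 1))` of the linear form with the coefficients
`a j`. -/
noncomputable def linForm {e : ℕ} {K : Type} [Field K] (a : Fin (e + 1) → K) (x : Fin e → K) : K :=
  ∑ j, a j * (Fin.cons 1 x : Fin (e + 1) → K) j

/-- Hyperplanes over the function field `L` of `B`. The `x j` are a transcendence basis of `K` over
`L` (they give the map of the generic fibre to the projective space); the coefficients `a i` of the
`r` hyperplanes are algebraic over `L`; any `e + 1` hyperplanes are independent; and one of the
following holds:

* at each prime divisor `P` of `E` which dominates `B` (all nonzero elements which are algebraic over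
  `L` are units at `P`) the multiplicity of `P` in the sum of the hyperplanes is `0` or at least `N`;
  the multiplicity in one of them is the difference of the order of the linear form and the minimum
  `m` of the orders of the coordinates;
* `N` divides `r` and the product of the linear forms is `b y ^ N` for some `y` and an element `b`
  algebraic over `L`. -/
def HyperplanesOverBase (w N : ℕ) {e r : ℕ} {K : Type} [Field K] [Algebra ℂ K]
    (X : Set (Place ℂ K)) (L : IntermediateField ℂ K) (a : Fin r → Fin (e + 1) → K)
    (x : Fin e → K) : Prop :=
  IsTranscendenceBasis L x ∧ (∀ i j, IsAlgebraic L (a i j)) ∧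
    (∀ τ : Fin (e + 1) → Fin r, Function.Injective τ →
      (Matrix.of fun k j => a (τ k) j).det ≠ 0) ∧
    ((∀ P ∈ X, Divisorial w P → (∀ b : K, IsAlgebraic L b → b ≠ 0 → P.ord b = 0) →
      ∀ m : ℤ, (∀ j, (Fin.cons 1 x : Fin (e + 1) → K) j = 0 ∨
        m ≤ P.ord ((Fin.cons 1 x : Fin (e + 1) → K) j)) →
      (∃ j, (Fin.cons 1 x : Fin (e + 1) → K) j ≠ 0 ∧
        P.ord ((Fin.cons 1 x : Fin (e + 1) → K) j) = m) →
      ∑ i, (P.ord (linForm (a i) x) - m) = 0 ∨
        (N : ℤ) ≤ ∑ i, (P.ord (linForm (a i) x) - m)) ∨
    (N ∣ r ∧ ∃ b y : K, IsAlgebraic L b ∧ ∏ i, linForm (a i) x = b * y ^ N))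

/-- `ω` is a section of `m K_X`, where `X` of dimension `w` is given by a set of prime divisors: an
`m`-canonical form whose values on vector fields which are regular at `P` are regular at `P`, for all
these prime divisors `P`. -/
def IsSection {K : Type} [Field K] [Algebra ℂ K] (w : ℕ) (X : Set (Place ℂ K)) (m : ℕ)
    (ω : (Fin w → Derivation ℂ K K) → K) : Prop :=
  IsPluri m ω ∧ ∀ P ∈ X, Divisorial w P → ∀ D : Fin w → Derivation ℂ K K,
    (∀ i, DerReg P (D i)) → P.Reg (ω D)

/-- `κ (X) ≥ κ`: some positive multiple of `K_X` has sections with `κ` algebraically independent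
ratios (a nonzero section, if `κ = 0`). -/
def KodairaGe {K : Type} [Field K] [Algebra ℂ K] (w : ℕ) (X : Set (Place ℂ K)) (κ : ℕ) : Prop :=
  ∃ m : ℕ, 0 < m ∧ ∃ ω : Fin (κ + 1) → (Fin w → Derivation ℂ K K) → K,
    (∀ j, IsSection w X m (ω j)) ∧
    ∃ D, ω 0 D ≠ 0 ∧ AlgebraicIndependent ℂ (fun i : Fin κ => ω i.succ D / ω 0 D)

/-- **Iitaka's inequality.** Let `K` be the function field of a smooth projective variety `E` of
dimension `d + e` (`X` the set of its prime divisors), fibred over a smooth projective variety `B` of
dimension `d` with the function field `L`, `e ≥ 1`, and let `a i` (`i < r`) be moving hyperplanes in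
the projective spaces of dimension `e` with total multiplicities at least `N`, or a cyclic cover of
degree `N` over them, where `N (r - e - 1) ≥ r`. If
`κ(B) ≥ κ ≥ 0` then `κ(E) ≥ κ`. -/
theorem result (d e : ℕ) (he : 1 ≤ e) (K : Type) [Field K] [Algebra ℂ K]
    (hK : Algebra.trdeg ℂ K = (d + e : ℕ)) (L : IntermediateField ℂ K)
    [Algebra.EssFiniteType ℂ L] (hL : Algebra.trdeg ℂ L = d) (X : Set (Place ℂ K))
    (r N : ℕ) (hr : e + 1 ≤ r) (hN : r ≤ N * (r - (e + 1))) (a : Fin r → Fin (e + 1) → K)
    (x : Fin e → K) (hF : HyperplanesOverBase (d + e) N X L a x) (κ : ℕ)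
    (hB : KodairaGe (K := L) d Set.univ κ) : KodairaGe (d + e) X κ := by
  have := he
  have hM : Pool.Agent.TH585.SV.MovData (d + e) N X L a x := by
    refine ⟨hF.2.1, hF.2.2.1, hF.1, ?_⟩
    rcases hF.2.2.2 with h1 | ⟨hNr, b, y, hb, hy⟩
    · exact h1
    · intro P _ _ hv m h0 _
      exact Pool.Agent.TH585.SV.mult_cyc hF.2.1
        (Pool.Agent.TH585.SV.mℓ_ne hF.2.1 hF.2.2.1 hF.1 hr) hb hNr hy hv h0
  obtain ⟨m, hm, θ, hθ, hne⟩ := hM.sec0 hr hN
  obtain ⟨M, hM', ω, hω, hne'⟩ := hB
  obtain ⟨M', h1, Ω, h2, h3⟩ := Pool.Agent.TH585.SV.base_fib (lam := 0) hL hK hF.1 hM'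
    (fun j => (hω j).1) (fun j v hv D hD => (hω j).2 v trivial hv D hD) hne' X hm hθ hne
  refine ⟨M', h1, Ω, fun j => ⟨(h2 j).1, fun P hPX hPd D hD => ?_⟩, h3⟩
  rcases (h2 j).2 P hPX hPd D hD with h7 | h7
  · exact Or.inl h7
  · right
    have h8 : (0 : ℝ) ≤ (P.ord (Ω j D) : ℝ) := by simpa using h7
    exact_mod_cast h8

end Pool.Agent.Results.MP_f72953_ag.MovingHyperplaneFibres
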