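import Pool.Agent.TH116.PT.Powers

/-!
# Iitaka's conjecture: sublinear defects for fibrations near general type are enough
-/

universe u

namespace Pool.Agent.Results.MP_f72953_ag.SublinearDefect

open Pool.Agent.TH116.PT

/-- Fibrations `F → E → B` of smooth complex projective varieties, their products, and the Kodaira
dimensions (`⊥` is `-∞`) and dimensions. -/
structure Fibrations where
  /-- the fibrations -/
  Fib : Type u
  /-- the Kodaira dimension of the total space -/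
  κE : Fib → WithBot ℕ
  /-- the Kodaira dimension of the general fibre -/
  κF : Fib → WithBot ℕ
  /-- the Kodaira dimension of the base -/
  κB : Fib → WithBot ℕ
  /-- the dimension of the fibres -/
  dimF : Fib → ℕ
  /-- the dimension of the base -/
  dimB : Fib → ℕ
  κF_le : ∀ f, κF f ≤ (dimF f : WithBot ℕ)
  κB_le : ∀ f, κB f ≤ (dimB f : WithBot ℕ)
  /-- the product `E × E' → B × B'` of two fibrations -/
  mul : Fib → Fib → Fib
  κE_mul : ∀ f g, κE (mul f g) = κE f + κE g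
  κF_mul : ∀ f g, κF (mul f g) = κF f + κF g
  κB_mul : ∀ f g, κB (mul f g) = κB f + κB g
  dimF_mul : ∀ f g, dimF (mul f g) = dimF f + dimF g
  dimB_mul : ∀ f g, dimB (mul f g) = dimB f + dimB g
  /-- the projection `C × C → C` for a curve `C` of genus two -/
  curve : Fib
  κE_curve : κE curve = ((2 : ℕ) : WithBot ℕ)
  κF_curve : κF curve = ((1 : ℕ) : WithBot ℕ)
  κB_curve : κB curve = ((1 : ℕ) : WithBot ℕ)
  dimF_curve : dimF curve = 1
  dimB_curve : dimB curve = 1

variable (T : Fibrations.{u})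

/-- The objects `f` with expected Kodaira dimension `κ(F) + κ(B)`. -/
def defect : DefectTheory.{u} where
  F := T.Fib
  κ := T.κE
  e f := T.κF f + T.κB f
  dim f := T.dimF f + T.dimB f
  e_le f := by
    rw [Nat.cast_add]
    exact add_le_add (T.κF_le f) (T.κB_le f)
  pow := powOf T.mul
  κ_pow := powOf_additive T.mul T.κE_mul
  e_pow f n := by
    rw [powOf_additive T.mul T.κF_mul, powOf_additive T.mul T.κB_mul, nsmul_add]
  dim_pow f n := by
    rw [powOf_nat' T.mul T.dimF_mul, powOf_nat' T.mul T.dimB_mul, mul_add]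
  u := 2
  one_le_u := by norm_num
  tw := twOf T.mul T.curve
  κ_tw f m := twOf_nat T.mul T.κE_mul T.curve f 2 T.κE_curve m
  e_tw f m := by
    rw [twOf_nat T.mul T.κF_mul T.curve f 1 T.κF_curve m,
      twOf_nat T.mul T.κB_mul T.curve f 1 T.κB_curve m, add_add_add_comm, ← Nat.cast_add]
    congr 2
    ring
  dim_tw f m := by
    rw [twOf_nat' T.mul T.dimF_mul T.curve f 1 T.dimF_curve m,
      twOf_nat' T.mul T.dimB_mul T.curve f 1 T.dimB_curve m]
    ring

/-- Iitaka's inequality for all fibrations, versus: the inequality up to an error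
`ε (dim E - κ(F) - κ(B)) + C` for the fibrations with `κ(F) ≥ (1 - η) dim F` and
`κ(B) ≥ (1 - η) dim B`. -/
theorem result (η : ℝ) (hη : 0 < η) :
    (∀ f : T.Fib, T.κF f + T.κB f ≤ T.κE f) ↔
      ∀ ε : ℝ, 0 < ε → ∃ C : ℝ, ∀ (f : T.Fib) (a b : ℕ),
        T.κF f = (a : WithBot ℕ) → T.κB f = (b : WithBot ℕ) →
        (1 - η) * T.dimF f ≤ a → (1 - η) * T.dimB f ≤ b →
        ε * ((T.dimF f + T.dimB f) - (a + b)) + C < a + b →
        ∃ c : ℕ, T.κE f = (c : WithBot ℕ) ∧
          (a + b : ℝ) - (ε * ((T.dimF f + T.dimB f) - (a + b)) + C) ≤ c := by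
  have key := (defect T).iff_eventually
    (fun f => ∃ a b : ℕ, T.κF f = (a : WithBot ℕ) ∧ T.κB f = (b : WithBot ℕ) ∧
      (1 - η) * T.dimF f ≤ a ∧ (1 - η) * T.dimB f ≤ b) (by
    intro f hf
    rcases cases_withBot (T.κF f) with ha | ⟨a, ha⟩
    · exact absurd (by show T.κF f + T.κB f = ⊥; rw [ha, WithBot.bot_add]) hf
    rcases cases_withBot (T.κB f) with hb | ⟨b, hb⟩
    · exact absurd (by show T.κF f + T.κB f = ⊥; rw [hb, WithBot.add_bot]) hf
    obtain ⟨M₁, hM₁⟩ := eventually_near η hη a (T.dimF f) 1 le_rfl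
    obtain ⟨M₂, hM₂⟩ := eventually_near η hη b (T.dimB f) 1 le_rfl
    refine ⟨max M₁ M₂, fun m hm => ⟨a + 1 * m, b + 1 * m, ?_, ?_, ?_, ?_⟩⟩
    · show T.κF (twOf T.mul T.curve f m) = _
      rw [twOf_nat T.mul T.κF_mul T.curve f 1 T.κF_curve m, ha, ← Nat.cast_add]
    · show T.κB (twOf T.mul T.curve f m) = _
      rw [twOf_nat T.mul T.κB_mul T.curve f 1 T.κB_curve m, hb, ← Nat.cast_add]
    · show (1 - η) * ((T.dimF (twOf T.mul T.curve f m) : ℕ) : ℝ) ≤ _
      rw [twOf_nat' T.mul T.dimF_mul T.curve f 1 T.dimF_curve m]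
      exact hM₁ m (le_trans (le_max_left _ _) hm)
    · show (1 - η) * ((T.dimB (twOf T.mul T.curve f m) : ℕ) : ℝ) ≤ _
      rw [twOf_nat' T.mul T.dimB_mul T.curve f 1 T.dimB_curve m]
      exact hM₂ m (le_trans (le_max_right _ _) hm))
  refine Iff.trans key ?_
  constructor
  · intro h ε hε
    obtain ⟨C, hC⟩ := h ε hε
    refine ⟨C, fun f a b ha hb ha' hb' hlt => ?_⟩
    have he : T.κF f + T.κB f = ((a + b : ℕ) : WithBot ℕ) := by rw [ha, hb, Nat.cast_add]
    obtain ⟨c, hc, hle⟩ := hC f (a + b) he ⟨a, b, ha, hb, ha', hb'⟩ (a + b) he (by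
      show ε * (((T.dimF f + T.dimB f : ℕ) : ℝ) - ((a + b : ℕ) : ℝ)) + C < ((a + b : ℕ) : ℝ)
      push_cast
      exact hlt)
    refine ⟨c, hc, ?_⟩
    have hle' : ((a + b : ℕ) : ℝ) -
        (ε * (((T.dimF f + T.dimB f : ℕ) : ℝ) - ((a + b : ℕ) : ℝ)) + C) ≤ c := hle
    push_cast at hle'
    exact hle'
  · intro h ε hε
    obtain ⟨C, hC⟩ := h ε hε
    refine ⟨C, fun f e he hN e' he' hlt => ?_⟩
    obtain ⟨a, b, ha, hb, ha', hb'⟩ := hN
    have he2 : (e : WithBot ℕ) = ((a + b : ℕ) : WithBot ℕ) := by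
      rw [← he]
      show T.κF f + T.κB f = _
      rw [ha, hb, Nat.cast_add]
    have he3 : e = a + b := by exact_mod_cast he2
    have he4 : e' = a + b := by
      rw [he] at he'
      have : e = e' := by exact_mod_cast he'
      omega
    subst he3
    subst he4
    have hlt' : ε * (((T.dimF f + T.dimB f : ℕ) : ℝ) - ((a + b : ℕ) : ℝ)) + C <
        ((a + b : ℕ) : ℝ) := hlt
    push_cast at hlt'
    obtain ⟨c, hc, hle⟩ := hC f a b ha hb ha' hb' hlt'
    refine ⟨c, hc, ?_⟩
    show ((a + b : ℕ) : ℝ) -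
        (ε * (((T.dimF f + T.dimB f : ℕ) : ℝ) - ((a + b : ℕ) : ℝ)) + C) ≤ c
    push_cast
    exact hle

end Pool.Agent.Results.MP_f72953_ag.SublinearDefect
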